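import Pool.Agent.H682.RV.Fwd

set_option autoImplicit false

/-!
# Exact offsets give a sequence of small variability
-/

namespace Pool.Agent.H682.RV

open Finset Pool.Agent.H741R2.PW

/-- The sum of the squares of the deviations, for one exceptional gap. -/
theorem dev_le {D b d : ℕ} (hd : 0 < d) (h : D = b * d + D % b) :
    ((d : ℚ) - 1) * ((b : ℚ) - D / d) ^ 2 + ((b : ℚ) + (D % b : ℕ) - D / d) ^ 2 ≤
      ((D % b : ℕ) : ℚ) ^ 2 := by
  have hdq : (0 : ℚ) < d := by exact_mod_cast hd
  have hD : (D : ℚ) = b * d + (D % b : ℕ) := by exact_mod_cast h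
  set r : ℚ := ((D % b : ℕ) : ℚ) with hr
  set x : ℚ := r / d with hx
  have h1 : (D : ℚ) / d = b + x := by
    rw [hD, hx]
    field_simp
  have h2 : r = d * x := by
    rw [hx]
    field_simp
  rw [h1]
  have h3 : (1 : ℚ) ≤ d := by exact_mod_cast hd
  have e : ((d : ℚ) - 1) * ((b : ℚ) - (b + x)) ^ 2 + ((b : ℚ) + r - (b + x)) ^ 2 =
      (d - 1) * x ^ 2 + (d - 1) ^ 2 * x ^ 2 := by
    rw [h2]
    ring
  rw [e, h2]
  nlinarith [sq_nonneg x, mul_nonneg (show (0 : ℚ) ≤ d by linarith) (sq_nonneg x)]

open Classical in
/-- **Exact offsets give a sequence of small variability.** -/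
theorem rtv_of_exact {L : List ℕ} {M S D nf : ℕ} (hL : ∀ x ∈ L, 0 < x ∧ x ≤ M)
    (hM : 2 * (M * M) ≤ D) (hS : L.length * (M * M) ≤ S)
    (hsum : (L.map (fun b => D / b) ++ List.replicate nf 1).sum = D)
    (h : Exact (fun i : Fin L.length => L[i])) :
    ∃ s, Feasible (L.map (fun b => D / b) ++ List.replicate nf 1) s ∧
      rtv (L.map (fun b => D / b) ++ List.replicate nf 1) s ≤ S := by
  set dl := L.map (fun b => D / b) ++ List.replicate nf 1 with hdl
  set b : Fin L.length → ℕ := fun i => L[i] with hb
  have hbM : ∀ i, 0 < b i ∧ b i ≤ M := fun i => hL _ (List.getElem_mem _)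
  have hlen : dl.length = L.length + nf := by
    rw [hdl, List.length_append, List.length_map, List.length_replicate]
  have hget : ∀ i : Fin L.length, dl.getD i 0 = D / b i := by
    intro i
    rw [hdl, List.getD_append _ _ _ _ (by rw [List.length_map]; exact i.2),
      List.getD_eq_getElem _ _ (by rw [List.length_map]; exact i.2), List.getElem_map]
    rfl
  have hget2 : ∀ j < nf, dl.getD (L.length + j) 0 = 1 := by
    intro j hj
    rw [hdl, List.getD_append_right _ _ _ _ (by rw [List.length_map]; omega), List.length_map,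
      Nat.add_sub_cancel_left, List.getD_eq_getElem _ _ (by rw [List.length_replicate]; exact hj),
      List.getElem_replicate]
  have hmean : ∀ i, 2 ≤ D / b i := fun i => (mean (hbM i).1 (hbM i).2 hM).1
  have hDb : ∀ i, D = b i * (D / b i) + D % b i := fun i => (Nat.div_add_mod D (b i)).symm
  obtain ⟨c0, hc0⟩ := h
  set c : Fin L.length → ℕ := fun i => c0 i % b i with hc
  have hcb : ∀ i, c i < b i := fun i => Nat.mod_lt _ (hbM i).1
  -- the positions of the tasks
  set P : Fin L.length → ℕ → Prop := fun i t => ∃ k < D / b i, t = c i + k * b i with hP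
  have hPD : ∀ i t, P i t → t < D := by
    rintro i t ⟨k, hk, rfl⟩
    have h1 := hcb i
    have h2 : (k + 1) * b i ≤ D / b i * b i := Nat.mul_le_mul_right _ hk
    have h3 := Nat.div_mul_le_self D (b i)
    rw [add_mul, one_mul] at h2
    omega
  have hPP : ∀ i j t, P i t → P j t → i = j := by
    rintro i j t ⟨k, _, hk⟩ ⟨l, _, hl⟩
    by_contra hne
    apply hc0 i j hne
    have h1 : ∀ i, t ≡ c i [MOD b i] → t ≡ c0 i [MOD b i] := fun i hi =>
      hi.trans (Nat.mod_modEq _ _)
    have h2 : t ≡ c i [MOD b i] := by
      rw [hk]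
      unfold Nat.ModEq
      rw [Nat.add_mul_mod_self_right]
    have h3 : t ≡ c j [MOD b j] := by
      rw [hl]
      unfold Nat.ModEq
      rw [Nat.add_mul_mod_self_right]
    exact ((h1 i h2).symm.of_dvd (Nat.gcd_dvd_left _ _)).trans
      ((h1 j h3).of_dvd (Nat.gcd_dvd_right _ _))
  set free : ℕ → Prop := fun t => ∀ i, ¬ P i t with hfree
  set s : ℕ → ℕ := fun t => if h : ∃ i, P i t then ((Classical.choose h : Fin L.length) : ℕ)
    else L.length + Nat.count free t with hs
  have hs1 : ∀ i t, P i t → s t = i := by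
    intro i t hi
    have h1 : ∃ i, P i t := ⟨i, hi⟩
    rw [hs]
    simp only [dif_pos h1]
    rw [hPP _ _ t (Classical.choose_spec h1) hi]
  have hs2 : ∀ t, free t → s t = L.length + Nat.count free t := by
    intro t ht
    have h1 : ¬ ∃ i, P i t := fun ⟨i, hi⟩ => ht i hi
    rw [hs]
    simp only [dif_neg h1]
  have hs3 : ∀ t (i : Fin L.length), s t = i ↔ P i t := by
    intro t i
    constructor
    · intro h1
      by_cases h2 : ∃ j, P j t
      · obtain ⟨j, hj⟩ := h2
        rw [hs1 j t hj] at h1
        rw [← Fin.ext h1]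
        exact hj
      · rw [hs2 t fun j hj => h2 ⟨j, hj⟩] at h1
        have := i.2
        omega
    · exact hs1 i t
  -- the number of positions of the tasks
  have hfil : ∀ i : Fin L.length, (range D).filter (fun p => s p = i) =
      (range (D / b i)).image fun k => c i + k * b i := by
    intro i
    ext t
    rw [mem_filter, mem_range, hs3, mem_image]
    constructor
    · rintro ⟨_, k, hk, rfl⟩
      exact ⟨k, mem_range.2 hk, rfl⟩
    · rintro ⟨k, hk, rfl⟩
      have h1 : P i (c i + k * b i) := ⟨k, mem_range.1 hk, rfl⟩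
      exact ⟨hPD i _ h1, h1⟩
  have hinj : ∀ i : Fin L.length, Function.Injective fun k => c i + k * b i := by
    intro i k l hkl
    exact Nat.eq_of_mul_eq_mul_right (hbM i).1 (Nat.add_left_cancel hkl)
  have hcard : ∀ i : Fin L.length, ((range D).filter (fun p => s p = i)).card = D / b i := by
    intro i
    rw [hfil, card_image_of_injective _ (hinj i), card_range]
  -- the number of free positions
  have hnf : Nat.count free D = nf := by
    have h1 : ((range D).filter fun t => ¬ free t).card = ∑ i : Fin L.length, D / b i := by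
      have h2 : (range D).filter (fun t => ¬ free t) =
          (univ : Finset (Fin L.length)).biUnion fun i => (range D).filter (fun p => s p = i) := by
        ext t
        rw [mem_filter, mem_biUnion]
        constructor
        · rintro ⟨h2, h3⟩
          rw [hfree] at h3
          push Not at h3
          obtain ⟨i, hi⟩ := h3
          exact ⟨i, mem_univ _, mem_filter.2 ⟨h2, hs1 i t hi⟩⟩
        · rintro ⟨i, _, hi⟩
          rw [mem_filter, hs3] at hi
          exact ⟨hi.1, fun h3 => h3 i hi.2⟩
      rw [h2, card_biUnion]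
      · exact sum_congr rfl fun i _ => hcard i
      · intro i _ j _ hij
        change Disjoint _ _
        rw [disjoint_left]
        intro t h3 h4
        rw [mem_filter] at h3 h4
        exact hij (Fin.ext (h3.2.symm.trans h4.2))
    have h2 := card_filter_add_card_filter_not (s := range D) (fun t => free t)
    rw [h1, card_range, ← Nat.count_eq_card_filter_range] at h2
    have h3 : (L.map (fun b => D / b)).sum = ∑ i : Fin L.length, D / b i := by
      rw [← List.sum_ofFn]
      congr 1
      apply List.ext_getElem <;> simp [hb]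
    rw [hdl, List.sum_append, h3, List.sum_replicate, smul_eq_mul, mul_one] at hsum
    omega
  have hinf : (Set.ofPred free).Infinite := by
    refine Set.infinite_of_forall_exists_gt fun a => ⟨max a D + 1, ?_, ?_⟩
    · intro i hi
      have := hPD i _ hi
      omega
    · have := le_max_left a D
      omega
  have hfeas : Feasible dl s := by
    intro i hi
    rw [hsum]
    by_cases h1 : i < L.length
    · rw [hget ⟨i, h1⟩]
      exact hcard ⟨i, h1⟩
    · obtain ⟨j, rfl⟩ := Nat.exists_eq_add_of_le (not_lt.1 h1)
      have hj : j < nf := by omega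
      rw [hget2 j hj, card_eq_one]
      rw [← hnf] at hj
      refine ⟨Nat.nth free j, ?_⟩
      have h3 : Nat.nth free j < D := Nat.nth_lt_of_lt_count hj
      have h4 : free (Nat.nth free j) := Nat.nth_mem_of_infinite hinf j
      have h5 : Nat.count free (Nat.nth free j) = j := Nat.count_nth_of_infinite hinf j
      ext t
      rw [mem_filter, mem_range, mem_singleton]
      constructor
      · rintro ⟨h6, h7⟩
        by_cases h8 : free t
        · rw [hs2 t h8] at h7
          have h9 : Nat.count free t = j := by omega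
          rw [← h9, Nat.nth_count h8]
        · rw [hfree] at h8
          push Not at h8
          obtain ⟨i, hi⟩ := h8
          rw [hs1 i t hi] at h7
          have := i.2
          omega
      · rintro rfl
        exact ⟨h3, by rw [hs2 _ h4, h5]⟩
  refine ⟨s, hfeas, ?_⟩
  -- the gaps
  have hsi : ∀ i k, k < D / b i → s (c i + k * b i) = i := fun i k hk => hs1 i _ ⟨k, hk, rfl⟩
  have hg1 : ∀ i k, k + 1 < D / b i → dist D s (c i + k * b i) = b i := by
    intro i k hk
    have h0 : c i + k * b i + b i = c i + (k + 1) * b i := by ring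
    have h1 : P i (c i + (k + 1) * b i) := ⟨k + 1, hk, rfl⟩
    have h2 := hPD i _ h1
    refine dist_eq (hbM i).1 ?_ fun j hj1 hj2 => ?_
    · rw [h0, Nat.mod_eq_of_lt h2, hsi i _ hk, hsi i k (by omega)]
    · rw [Nat.mod_eq_of_lt (by omega), hsi i k (by omega), Ne, hs3]
      rintro ⟨l, _, hl⟩
      have h3 : k * b i + j = l * b i := by omega
      rcases Nat.lt_or_ge k l with h4 | h4
      · have h5 : (k + 1) * b i ≤ l * b i := Nat.mul_le_mul_right _ h4
        rw [add_mul, one_mul] at h5
        omega
      · have h5 : l * b i ≤ k * b i := Nat.mul_le_mul_right _ h4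
        omega
  have hg2 : ∀ i, dist D s (c i + (D / b i - 1) * b i) = b i + D % b i := by
    intro i
    have hd := hmean i
    have h0 : (D / b i - 1) * b i + b i = D / b i * b i := by
      conv_lhs => rw [← Nat.succ_mul]
      congr 1
      omega
    have h1 : D = D / b i * b i + D % b i := by
      conv_lhs => rw [hDb i]
      rw [mul_comm]
    have h2 := hcb i
    have h3 : b i ≤ D / b i * b i := Nat.le_mul_of_pos_left _ (by omega)
    refine dist_eq (by have := (hbM i).1; omega) ?_ fun j hj1 hj2 => ?_
    · have e : c i + (D / b i - 1) * b i + (b i + D % b i) = c i + D := by omega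
      rw [e, Nat.add_mod_right, Nat.mod_eq_of_lt (by omega), hsi i _ (by omega)]
      have := hsi i 0 (by omega)
      rwa [zero_mul, add_zero] at this
    · rw [hsi i _ (by omega), Ne, hs3]
      rintro ⟨l, hl1, hl⟩
      have h4 : l * b i ≤ (D / b i - 1) * b i := Nat.mul_le_mul_right _ (by omega)
      rcases Nat.lt_or_ge (c i + (D / b i - 1) * b i + j) D with h5 | h5
      · rw [Nat.mod_eq_of_lt h5] at hl
        omega
      · have e : c i + (D / b i - 1) * b i + j = (c i + (D / b i - 1) * b i + j - D) + D := by
          omega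
        rw [e, Nat.add_mod_right, Nat.mod_eq_of_lt (by omega)] at hl
        omega
  -- the variability of a task
  have hone : ∀ i : Fin L.length, rtv1 D (D / b i) s i ≤ ((M * M : ℕ) : ℚ) := by
    intro i
    have hd := hmean i
    unfold rtv1
    rw [if_neg (by omega), hfil, sum_image fun k _ l _ hkl => hinj i hkl]
    obtain ⟨d', hd'⟩ : ∃ d', D / b i = d' + 1 := ⟨D / b i - 1, by omega⟩
    have h1 : ∑ k ∈ range (D / b i), ((dist D s (c i + k * b i) : ℚ) -
        D / ((D / b i : ℕ) : ℚ)) ^ 2 = (((D / b i : ℕ) : ℚ) - 1) *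
        ((b i : ℚ) - D / ((D / b i : ℕ) : ℚ)) ^ 2 +
        ((b i : ℚ) + (D % b i : ℕ) - D / ((D / b i : ℕ) : ℚ)) ^ 2 := by
      have h2 := hg2 i
      have h3 := hg1 i
      set q : ℚ := (D : ℚ) / ((D / b i : ℕ) : ℚ)
      rw [hd'] at h2 h3 ⊢
      rw [sum_range_succ, Nat.add_sub_cancel] at *
      rw [h2]
      have h4 : ∀ k ∈ range d', ((dist D s (c i + k * b i) : ℚ) - q) ^ 2 = ((b i : ℚ) - q) ^ 2 := by
        intro k hk
        rw [h3 k (by rw [mem_range] at hk; omega)]
      rw [sum_congr rfl h4, sum_const, card_range, nsmul_eq_mul]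
      push_cast
      ring
    rw [h1]
    refine (dev_le (by omega) (hDb i)).trans ?_
    have h2 : D % b i ≤ M := ((Nat.mod_lt _ (hbM i).1).le).trans (hbM i).2
    have h3 : (D % b i) ^ 2 ≤ M * M := by
      rw [sq]
      exact Nat.mul_le_mul h2 h2
    exact_mod_cast h3
  unfold rtv
  rw [hlen, hsum, sum_range_add]
  have h1 : ∑ x ∈ range nf, rtv1 D (dl.getD (L.length + x) 0) s (L.length + x) = 0 := by
    refine sum_eq_zero fun j hj => ?_
    rw [hget2 j (mem_range.1 hj)]
    unfold rtv1
    rw [if_pos rfl]
  have h2 : ∑ x ∈ range L.length, rtv1 D (dl.getD x 0) s x ≤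
      ∑ x ∈ range L.length, ((M * M : ℕ) : ℚ) := by
    refine sum_le_sum fun i hi => ?_
    rw [mem_range] at hi
    rw [hget ⟨i, hi⟩]
    exact hone ⟨i, hi⟩
  rw [sum_const, card_range, nsmul_eq_mul] at h2
  rw [h1, add_zero]
  refine h2.trans ?_
  exact_mod_cast hS

end Pool.Agent.H682.RV
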