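import Pool.Graph.R_seed8.NPC.Defs

set_option autoImplicit false

/-!
# Response time variability: definitions
-/

namespace Pool.Agent.H682.RV

open Finset Pool.Agent.NPC

/-- The distance from position `p` of the cyclic sequence `s 0, …, s (D - 1)` to the next position
with the same entry: the least `k > 0` with `s ((p + k) mod D) = s p`. -/
noncomputable def dist (D : ℕ) (s : ℕ → ℕ) (p : ℕ) : ℕ := sInf {k | 0 < k ∧ s ((p + k) % D) = s p}

open Classical in
/-- The response time variability of model `i` with demand `d` in the cyclic sequence
`s 0, …, s (D - 1)`: the sum over its positions `p` of `(t - D / d) ^ 2`, where `t` is the distance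
from `p` to the next position of the model; it is `0` if `d = 1`. -/
noncomputable def rtv1 (D d : ℕ) (s : ℕ → ℕ) (i : ℕ) : ℚ :=
  if d = 1 then 0 else ∑ p ∈ (range D).filter (fun p => s p = i), ((dist D s p : ℚ) - D / d) ^ 2

/-- The total response time variability, for the list `d` of the demands. -/
noncomputable def rtv (d : List ℕ) (s : ℕ → ℕ) : ℚ :=
  ∑ i ∈ range d.length, rtv1 d.sum (d.getD i 0) s i

open Classical in
/-- The sequence `s 0, …, s (D - 1)`, where `D` is the sum of the demands, contains each model `i`
exactly `d i` times. -/
def Feasible (d : List ℕ) (s : ℕ → ℕ) : Prop :=
  ∀ i < d.length, ((range d.sum).filter (fun p => s p = i)).card = d.getD i 0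

/-- The response time variability problem (decision version): `d` lists the demands of at least two
models, which are positive; is there a sequence of total response time variability at most `B`? -/
def RTV (d : List ℕ) (B : ℚ) : Prop :=
  2 ≤ d.length ∧ (∀ x ∈ d, 1 ≤ x) ∧ ∃ s, Feasible d s ∧ rtv d s ≤ B

/-- The response time variability problem with the demands written in unary: a demand is given as
a list of this length. The bound is a rational number, written in binary. -/
def RTVUnary (x : List (List Unit) × ℚ) : Prop := RTV (x.1.map List.length) x.2

end Pool.Agent.H682.RV
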