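import Pool.Agent.H682.RV.Defs
import Pool.Graph.R_seed8.H741R2.PWCore

set_option autoImplicit false

/-!
# A sequence of small variability gives exact offsets
-/

namespace Pool.Agent.H682.RV

open Finset Pool.Agent.H741R2.PW

theorem dist_spec {D : ℕ} {s : ℕ → ℕ} {p : ℕ} (hp : p < D) :
    0 < dist D s p ∧ s ((p + dist D s p) % D) = s p := by
  have h : (D : ℕ) ∈ {k | 0 < k ∧ s ((p + k) % D) = s p} := by
    refine ⟨by omega, ?_⟩
    rw [Nat.add_mod_right, Nat.mod_eq_of_lt hp]
  exact Nat.sInf_mem ⟨D, h⟩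

theorem dist_min {D : ℕ} {s : ℕ → ℕ} {p k : ℕ} (hk : 0 < k) (h : s ((p + k) % D) = s p) :
    dist D s p ≤ k := Nat.sInf_le ⟨hk, h⟩

theorem dist_eq {D : ℕ} {s : ℕ → ℕ} {p k : ℕ} (hk : 0 < k) (h : s ((p + k) % D) = s p)
    (hmin : ∀ j, 0 < j → j < k → s ((p + j) % D) ≠ s p) : dist D s p = k := by
  refine le_antisymm (dist_min hk h) (le_csInf ⟨k, hk, h⟩ fun j hj => ?_)
  by_contra hlt
  exact hmin j hj.1 (not_le.1 hlt) hj.2

/-- Numerical facts: `d = D / b`. -/
theorem mean {D b M : ℕ} (hb : 0 < b) (hbM : b ≤ M) (hD : 2 * (M * M) ≤ D) :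
    2 ≤ D / b ∧ (b : ℚ) ≤ D / ((D / b : ℕ) : ℚ) ∧
      (D : ℚ) / ((D / b : ℕ) : ℚ) ≤ b + 1 / 2 := by
  have hM : 0 < M := hb.trans_le hbM
  have h1 : 2 * M ≤ D / b := by
    rw [Nat.le_div_iff_mul_le hb]
    calc 2 * M * b ≤ 2 * M * M := Nat.mul_le_mul_left _ hbM
      _ = 2 * (M * M) := by ring
      _ ≤ D := hD
  have h2 : D = b * (D / b) + D % b := (Nat.div_add_mod D b).symm
  have h3 : D % b < b := Nat.mod_lt _ hb
  set d := D / b with hd
  have hdq : (0 : ℚ) < d := by exact_mod_cast (show 0 < d by omega)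
  have h4 : (D : ℚ) = b * d + (D % b : ℕ) := by exact_mod_cast h2
  refine ⟨by omega, ?_, ?_⟩
  · rw [le_div_iff₀ hdq, h4]
    have : (0 : ℚ) ≤ (D % b : ℕ) := Nat.cast_nonneg _
    linarith
  · rw [div_le_iff₀ hdq, h4]
    have h5 : 2 * (D % b) ≤ d := by omega
    have h6 : (2 : ℚ) * (D % b : ℕ) ≤ d := by exact_mod_cast h5
    linarith

open Classical in
/-- **A sequence of small variability gives exact offsets.** -/
theorem exact_of_rtv {L rest : List ℕ} {M S D : ℕ} (hL : ∀ x ∈ L, 0 < x ∧ x ≤ M)
    (hM : 2 * (M * M) ≤ D) (hW : (4 * S + 1) * (M + S + M * M) ≤ D)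
    (hsum : (L.map (fun b => D / b) ++ rest).sum = D) {s : ℕ → ℕ}
    (hs : Feasible (L.map (fun b => D / b) ++ rest) s)
    (h : rtv (L.map (fun b => D / b) ++ rest) s ≤ S) :
    Exact (fun i : Fin L.length => L[i]) := by
  set d := L.map (fun b => D / b) ++ rest with hd
  set b : Fin L.length → ℕ := fun i => L[i] with hb
  have hbM : ∀ i, 0 < b i ∧ b i ≤ M := fun i => hL _ (List.getElem_mem _)
  have hlen : L.length ≤ d.length := by
    rw [hd, List.length_append, List.length_map]
    omega
  have hget : ∀ i : Fin L.length, d.getD i 0 = D / b i := by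
    intro i
    rw [hd, List.getD_append _ _ _ _ (by rw [List.length_map]; exact i.2),
      List.getD_eq_getElem _ _ (by rw [List.length_map]; exact i.2), List.getElem_map]
    rfl
  have hmean : ∀ i, 2 ≤ D / b i ∧ (b i : ℚ) ≤ D / ((D / b i : ℕ) : ℚ) ∧
      (D : ℚ) / ((D / b i : ℕ) : ℚ) ≤ b i + 1 / 2 := fun i => mean (hbM i).1 (hbM i).2 hM
  -- the variability of the tasks
  have hnn : ∀ i ∈ range d.length, 0 ≤ rtv1 d.sum (d.getD i 0) s i := by
    intro i _
    unfold rtv1
    split_ifs
    · exact le_rfl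
    · exact sum_nonneg fun p _ => sq_nonneg _
  have hone : ∀ i : Fin L.length, rtv1 d.sum (d.getD i 0) s i =
      ∑ p ∈ (range D).filter (fun p => s p = i),
        ((dist D s p : ℚ) - D / ((D / b i : ℕ) : ℚ)) ^ 2 := by
    intro i
    unfold rtv1
    rw [hget i, if_neg (by have := (hmean i).1; omega), hsum]
  have hS : ∑ i : Fin L.length, ∑ p ∈ (range D).filter (fun p => s p = i),
      ((dist D s p : ℚ) - D / ((D / b i : ℕ) : ℚ)) ^ 2 ≤ S := by
    refine le_trans ?_ h
    unfold rtv
    have h1 : ∑ i : Fin L.length, ∑ p ∈ (range D).filter (fun p => s p = i),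
        ((dist D s p : ℚ) - D / ((D / b i : ℕ) : ℚ)) ^ 2 =
        ∑ i ∈ range L.length, rtv1 d.sum (d.getD i 0) s i := by
      rw [← Fin.sum_univ_eq_sum_range (fun i => rtv1 d.sum (d.getD i 0) s i)]
      exact sum_congr rfl fun i _ => (hone i).symm
    rw [h1]
    refine sum_le_sum_of_subset_of_nonneg (fun i hi => ?_) fun i hi _ => hnn i hi
    rw [mem_range] at hi ⊢
    omega
  -- no gap is long
  have hlong : ∀ (i : Fin L.length) (p : ℕ), p < D → s p = i → dist D s p ≤ M + S := by
    intro i p hp hpi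
    have h1 : ((dist D s p : ℚ) - D / ((D / b i : ℕ) : ℚ)) ^ 2 ≤ S := by
      refine le_trans ?_ hS
      refine le_trans ?_ (single_le_sum (f := fun i : Fin L.length =>
        ∑ p ∈ (range D).filter (fun p => s p = i),
          ((dist D s p : ℚ) - D / ((D / b i : ℕ) : ℚ)) ^ 2)
        (fun i _ => sum_nonneg fun p _ => sq_nonneg _) (mem_univ i))
      exact single_le_sum (f := fun p => ((dist D s p : ℚ) - D / ((D / b i : ℕ) : ℚ)) ^ 2)
        (fun p _ => sq_nonneg _) (mem_filter.2 ⟨mem_range.2 hp, hpi⟩)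
    have h2 := (hmean i).2.2
    have h3 : (dist D s p : ℚ) - D / ((D / b i : ℕ) : ℚ) ≤ S := by
      by_contra hlt
      rw [not_le] at hlt
      rcases Nat.eq_zero_or_pos S with h4 | h4
      · rw [h4, Nat.cast_zero] at hlt h1
        nlinarith
      · have h5 : (1 : ℚ) ≤ S := by exact_mod_cast h4
        nlinarith
    have h4 : (b i : ℚ) ≤ M := by exact_mod_cast (hbM i).2
    have h5 : (dist D s p : ℚ) < M + S + 1 := by linarith
    have h6 : dist D s p < M + S + 1 := by exact_mod_cast h5
    omega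
  -- there are few irregular gaps
  set Ir := (univ : Finset (Fin L.length)).biUnion fun i =>
    (range D).filter (fun p => s p = i ∧ dist D s p ≠ b i) with hIr
  have hirr : Ir.card ≤ 4 * S := by
    have h1 : (Ir.card : ℚ) ≤ ∑ i : Fin L.length,
        (((range D).filter (fun p => s p = i ∧ dist D s p ≠ b i)).card : ℚ) := by
      exact_mod_cast card_biUnion_le
    have h2 : ∀ i : Fin L.length,
        (((range D).filter (fun p => s p = i ∧ dist D s p ≠ b i)).card : ℚ) ≤
        4 * ∑ p ∈ (range D).filter (fun p => s p = i),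
          ((dist D s p : ℚ) - D / ((D / b i : ℕ) : ℚ)) ^ 2 := by
      intro i
      rw [mul_sum, card_eq_sum_ones, Nat.cast_sum]
      have h3 : (range D).filter (fun p => s p = i ∧ dist D s p ≠ b i) ⊆
          (range D).filter (fun p => s p = i) := by
        intro p hp
        rw [mem_filter] at hp ⊢
        exact ⟨hp.1, hp.2.1⟩
      refine le_trans (sum_le_sum fun p hp => ?_) (sum_le_sum_of_subset_of_nonneg h3
        fun p _ _ => mul_nonneg (by norm_num) (sq_nonneg _))
      rw [mem_filter] at hp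
      have h4 := (hmean i).2
      have h5 : (dist D s p : ℚ) + 1 ≤ b i ∨ (b i : ℚ) + 1 ≤ dist D s p := by
        rcases Nat.lt_or_gt_of_ne hp.2.2 with h6 | h6
        · left
          exact_mod_cast h6
        · right
          exact_mod_cast h6
      push_cast
      rcases h5 with h5 | h5
      · nlinarith
      · nlinarith
    have h3 : (Ir.card : ℚ) ≤ 4 * S := by
      refine h1.trans ((sum_le_sum fun i _ => h2 i).trans ?_)
      rw [← mul_sum]
      linarith
    exact_mod_cast h3
  -- a window without irregular gaps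
  set W := M + S + M * M with hWd
  obtain ⟨T, hTD, hT⟩ : ∃ T, T + W ≤ D ∧ ∀ p, T ≤ p → p < T + W → ∀ i : Fin L.length,
      s p = i → dist D s p = b i := by
    by_contra hno
    push Not at hno
    have h1 : ∀ k : ℕ, k < 4 * S + 1 → ∃ p ∈ Ir, k * W ≤ p ∧ p < (k + 1) * W := by
      intro k hk
      have h2 : (k + 1) * W ≤ D := (Nat.mul_le_mul_right _ hk).trans hW
      obtain ⟨p, hp1, hp2, i, hp3, hp4⟩ := hno (k * W) (by rw [add_mul, one_mul] at h2; exact h2)
      refine ⟨p, ?_, hp1, by rw [add_mul, one_mul]; exact hp2⟩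
      rw [hIr, mem_biUnion]
      refine ⟨i, mem_univ _, ?_⟩
      rw [mem_filter, mem_range]
      rw [add_mul, one_mul] at h2
      exact ⟨by omega, hp3, hp4⟩
    choose! f hf1 hf2 hf3 using h1
    have h2 : Set.InjOn f (range (4 * S + 1) : Set ℕ) := by
      intro k hk l hl hkl
      rw [coe_range, Set.mem_Iio] at hk hl
      have a1 := hf2 k hk
      have a2 := hf3 k hk
      have a3 := hf2 l hl
      have a4 := hf3 l hl
      rw [hkl] at a1 a2
      by_contra hne
      rcases Nat.lt_or_gt_of_ne hne with h | h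
      · have : (k + 1) * W ≤ l * W := Nat.mul_le_mul_right _ h
        omega
      · have : (l + 1) * W ≤ k * W := Nat.mul_le_mul_right _ h
        omega
    have h3 : ((range (4 * S + 1)).image f) ⊆ Ir := by
      intro p hp
      rw [mem_image] at hp
      obtain ⟨k, hk, rfl⟩ := hp
      exact hf1 k (mem_range.1 hk)
    have h4 := card_le_card h3
    rw [card_image_of_injOn h2, card_range] at h4
    omega
  -- first occurrences
  have hfirst : ∀ i : Fin L.length, ∃ t, T ≤ t ∧ t < T + (M + S) ∧ s t = i := by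
    intro i
    by_contra hno
    push Not at hno
    have hMS : 0 < M := (hbM i).1.trans_le (hbM i).2
    have hDpos : 0 < D := by
      have : 0 < W := by omega
      omega
    -- an occurrence
    have h1 : 0 < ((range d.sum).filter (fun p => s p = (i : ℕ))).card := by
      rw [hs i (i.2.trans_le hlen), hget i]
      have := (hmean i).1
      omega
    obtain ⟨p0, hp0⟩ := card_pos.1 h1
    rw [mem_filter, mem_range, hsum] at hp0
    -- the last occurrence before `T`
    have hex : ∃ k, 0 < k ∧ k ≤ D ∧ s ((T + D - k) % D) = i := by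
      by_cases h2 : p0 < T
      · refine ⟨T - p0, by omega, by omega, ?_⟩
        have e : T + D - (T - p0) = p0 + D := by omega
        rw [e, Nat.add_mod_right, Nat.mod_eq_of_lt hp0.1]
        exact hp0.2
      · refine ⟨T + D - p0, by omega, by omega, ?_⟩
        have e : T + D - (T + D - p0) = p0 := by omega
        rw [e, Nat.mod_eq_of_lt hp0.1]
        exact hp0.2
    obtain ⟨hk1, hk2, hk3⟩ := Nat.find_spec hex
    have hkm : ∀ j < Nat.find hex, ¬ (0 < j ∧ j ≤ D ∧ s ((T + D - j) % D) = i) :=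
      fun j hj => Nat.find_min hex hj
    set k := Nat.find hex with hk
    have hpD : (T + D - k) % D < D := Nat.mod_lt _ hDpos
    have h2 := hlong i _ hpD hk3
    obtain ⟨h3, h4⟩ := dist_spec (s := s) hpD
    set g := dist D s ((T + D - k) % D) with hg
    rw [Nat.mod_add_mod, hk3] at h4
    by_cases h5 : g < k
    · apply hkm (k - g) (by omega)
      refine ⟨by omega, by omega, ?_⟩
      have e : T + D - (k - g) = T + D - k + g := by omega
      rw [e]
      exact h4
    · have e : T + D - k + g = T + (g - k) + D := by omega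
      rw [e, Nat.add_mod_right, Nat.mod_eq_of_lt (by omega)] at h4
      exact hno _ (by omega) (by omega) h4
  choose c hc1 hc2 hc3 using hfirst
  have hper : ∀ i k, c i + k * b i < T + W → s (c i + k * b i) = i := by
    intro i k
    induction k with
    | zero => intro _; simpa using hc3 i
    | succ k ih =>
      intro hlt
      have h0 : c i + (k + 1) * b i = c i + k * b i + b i := by ring
      rw [h0] at hlt ⊢
      have h1 := ih (by omega)
      have hcT := hc1 i
      have h2 := hT _ (by omega) (by omega) i h1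
      have h3 := (dist_spec (D := D) (s := s) (p := c i + k * b i) (by omega)).2
      rw [h2, Nat.mod_eq_of_lt (by omega), h1] at h3
      exact h3
  refine ⟨c, fun i j hij hmod => hij ?_⟩
  -- a common time
  obtain ⟨x, hx1, hx2⟩ := Nat.chineseRemainder' hmod
  set Lc := Nat.lcm (b i) (b j) with hLc
  have hLc0 : 0 < Lc := Nat.lcm_pos (hbM i).1 (hbM j).1
  have hLcB : Lc ≤ M * M :=
    (Nat.le_of_dvd (Nat.mul_pos (hbM i).1 (hbM j).1) (Nat.lcm_dvd (Dvd.intro _ rfl)
      (Dvd.intro_left _ rfl))).trans (Nat.mul_le_mul (hbM i).2 (hbM j).2)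
  obtain ⟨y, hy1, hy2, hy3⟩ := exists_modEq_window Lc x (T + (M + S)) hLc0
  have hyi : y ≡ c i [MOD b i] := (hy3.of_dvd (Nat.dvd_lcm_left _ _)).trans hx1
  have hyj : y ≡ c j [MOD b j] := (hy3.of_dvd (Nat.dvd_lcm_right _ _)).trans hx2
  have hgt : ∀ i : Fin L.length, y ≡ c i [MOD b i] → s y = i := by
    intro i hi
    have h1 : c i ≤ y := by
      have := hc2 i
      omega
    obtain ⟨k, hk⟩ := (Nat.modEq_iff_dvd' h1).1 hi.symm
    have h2 : y = c i + k * b i := by
      rw [mul_comm] at hk
      omega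
    rw [h2]
    apply hper
    rw [← h2]
    omega
  exact Fin.ext ((hgt i hyi).symm.trans (hgt j hyj))

end Pool.Agent.H682.RV
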