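import Pool.Agent.H682.RV.Bwd
import Pool.Graph.R_seed8.H741R2.PWPoly

set_option autoImplicit false

/-!
# The reduction from 3SAT to response time variability
-/

namespace Pool.Agent.H682.RV

open Finset Pool.Agent.NPC Pool.Agent.H741R2.PW

/-- The bound for the variability. -/
def SS (m : ℕ) : ℕ := nt m * (BP m * BP m)

/-- The length of the sequence. -/
def DD (m : ℕ) : ℕ := (4 * SS m + 1) * (BP m + SS m + BP m * BP m) + 2 * (BP m * BP m) + 2 * nt m + 4

/-- The number of fillers. -/
def nfR (φ : Cn) : ℕ := DD φ.length - ((tl φ).map (fun b => DD φ.length / b)).sum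

/-- The demands. -/
def demands (φ : Cn) : List ℕ := (tl φ).map (fun b => DD φ.length / b) ++ List.replicate (nfR φ) 1

theorem tl_spec (φ : Cn) : (tl φ).length ≤ nt φ.length ∧
    ∀ x ∈ tl φ, 2 * nt φ.length ≤ x ∧ 0 < x ∧ x ≤ BP φ.length := by
  refine ⟨?_, fun x hx => ?_⟩
  · unfold tl
    rw [List.length_map]
    exact tasks_length_le _ _ _
  · unfold tl at hx
    rw [List.mem_map] at hx
    obtain ⟨y, hy, rfl⟩ := hx
    exact per_bounds hy

theorem sum_le (φ : Cn) : 2 * ((tl φ).map (fun b => DD φ.length / b)).sum ≤ DD φ.length := by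
  obtain ⟨h1, h2⟩ := tl_spec φ
  set D := DD φ.length
  rcases Nat.eq_zero_or_pos (nt φ.length) with h0 | h0
  · have h3 : tl φ = [] := List.length_eq_zero_iff.1 (by omega)
    rw [h3]
    simp
  · have h3 : ((tl φ).map (fun b => D / b)).sum ≤ (tl φ).length * (D / (2 * nt φ.length)) := by
      have h4 : ∀ y ∈ (tl φ).map (fun b => D / b), y ≤ D / (2 * nt φ.length) := by
        intro y hy
        rw [List.mem_map] at hy
        obtain ⟨x, hx, rfl⟩ := hy
        exact Nat.div_le_div_left (h2 x hx).1 (by omega)
      have h5 := List.sum_le_card_nsmul _ _ h4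
      rwa [List.length_map, smul_eq_mul] at h5
    have h4 : (tl φ).length * (D / (2 * nt φ.length)) ≤ nt φ.length * (D / (2 * nt φ.length)) :=
      Nat.mul_le_mul_right _ h1
    have h5 : 2 * nt φ.length * (D / (2 * nt φ.length)) ≤ D := Nat.mul_div_le _ _
    have h6 : 2 * (nt φ.length * (D / (2 * nt φ.length))) =
        2 * nt φ.length * (D / (2 * nt φ.length)) := by ring
    omega

theorem demands_sum (φ : Cn) : (demands φ).sum = DD φ.length := by
  unfold demands nfR
  rw [List.sum_append, List.sum_replicate, smul_eq_mul, mul_one]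
  have := sum_le φ
  omega

theorem exact_sat (φ : Cn) : Exact (fun i : Fin (tl φ).length => (tl φ)[i]) ↔ SAT3 φ := by
  rw [satT_iff]
  have h1 := exact_iff (tasks φ.length (lv φ) (ls φ)) tasks_nodup (per φ.length (pr φ.length))
  refine h1.trans ?_
  constructor
  · intro h
    exact sat_of_exact (fun i hi => (pr_spec hi).1) (fun i hi j hj h => pr_inj hi hj h) h
  · intro h
    refine exact_of_sat (fun i hi => (pr_spec hi).1) (fun i hi j hj h => pr_inj hi hj h)
      (fun i hi => ?_) h
    have := (pr_spec hi).2.1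
    unfold nt at this
    omega

/-- **Correctness of the reduction.** -/
theorem demands_correct (φ : Cn) : SAT3 φ ↔ RTV (demands φ) (SS φ.length : ℕ) := by
  obtain ⟨h1, h2⟩ := tl_spec φ
  set m := φ.length with hm
  have hsum := demands_sum φ
  rw [← hm] at hsum
  have hle := sum_le φ
  rw [← hm] at hle
  have hM : 2 * (BP m * BP m) ≤ DD m := by unfold DD; omega
  have hW : (4 * SS m + 1) * (BP m + SS m + BP m * BP m) ≤ DD m := by unfold DD; omega
  have hS : (tl φ).length * (BP m * BP m) ≤ SS m := Nat.mul_le_mul_right _ h1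
  have h4 : 4 ≤ DD m := by unfold DD; omega
  rw [← exact_sat]
  constructor
  · intro h
    refine ⟨?_, ?_, ?_⟩
    · unfold demands nfR
      rw [List.length_append, List.length_replicate, ← hm]
      omega
    · intro x hx
      unfold demands at hx
      rw [List.mem_append] at hx
      rcases hx with hx | hx
      · rw [List.mem_map] at hx
        obtain ⟨b, hb, rfl⟩ := hx
        have h5 := h2 b hb
        have := (mean h5.2.1 h5.2.2 hM).1
        rw [← hm]
        omega
      · rw [List.eq_of_mem_replicate hx]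
    · exact rtv_of_exact (fun x hx => (h2 x hx).2) hM hS hsum h
  · rintro ⟨_, _, s, hs1, hs2⟩
    exact exact_of_rtv (fun x hx => (h2 x hx).2) hM hW hsum hs1 hs2

/-! ### Polynomial time -/

theorem SS_u : UPoly (fun φ : Cn => SS φ.length) :=
  UPoly.mul nt_u (UPoly.mul BP_u BP_u)

theorem DD_u : UPoly (fun φ : Cn => DD φ.length) :=
  UPoly.add (UPoly.add (UPoly.add (UPoly.mul (UPoly.add (UPoly.mul (UPoly.const 4) SS_u)
    (UPoly.const 1)) (UPoly.add (UPoly.add BP_u SS_u) (UPoly.mul BP_u BP_u)))
    (UPoly.mul (UPoly.const 2) (UPoly.mul BP_u BP_u))) (UPoly.mul (UPoly.const 2) nt_u))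
    (UPoly.const 4)

theorem map_poly : Poly (fun φ : Cn => (tl φ).map (fun b => DD φ.length / b)) :=
  NPC.Poly.map (F := fun (φ : Cn) (b : ℕ) => DD φ.length / b) tl_poly
    (Poly.div (DD_u.toPoly.comp (Poly.fst Poly.id)) (Poly.snd Poly.id))

theorem nfR_poly : Poly nfR := by
  unfold nfR
  exact Poly.sub DD_u.toPoly (Poly.sum map_poly)

theorem demands_poly : Poly demands := by
  unfold demands
  exact Poly.append map_poly (replicate_poly (UPoly.of_le nfR_poly DD_u
    (fun φ => Nat.sub_le _ _)) (NPC.Poly.const 1))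

/-- The demands in unary. -/
def demandsU (φ : Cn) : List (List Unit) := (demands φ).map (fun b => List.replicate b ())

theorem demandsU_poly : Poly demandsU := by
  have h1 : UPoly (fun p : Cn × ℕ => min p.2 (DD p.1.length)) :=
    UPoly.of_le (n := fun p : Cn × ℕ => DD p.1.length)
      (Poly.min (Poly.snd Poly.id) (DD_u.toPoly.comp (Poly.fst Poly.id)))
      (DD_u.comp (Poly.fst Poly.id)) (fun p => Nat.min_le_right _ _)
  refine (NPC.Poly.map (l := demands) (F := fun (φ : Cn) b => List.replicate
    (min b (DD φ.length)) ()) demands_poly h1).congr fun φ => ?_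
  unfold demandsU
  refine List.map_congr_left fun b hb => ?_
  rw [Nat.min_eq_left]
  rw [← demands_sum φ]
  exact List.le_sum_of_mem hb

theorem rat_poly {α : Type} [TEnc α] {n : α → ℕ} (hn : Poly n) :
    Poly (fun a => ((n a : ℕ) : ℚ)) := by
  refine Poly.of_toT ?_
  have h1 : Poly (fun a => ((false, n a), 1)) :=
    Poly.pair (Poly.pair (NPC.Poly.const false) hn) (NPC.Poly.const 1)
  refine h1.toT'.congr fun a => ?_
  change toT ((false, n a), 1) = toT (((n a : ℕ) : ℚ).num, ((n a : ℕ) : ℚ).den)
  rw [Rat.num_natCast, Rat.den_natCast]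
  change T.node (toT (false, n a)) (toT 1) =
    T.node (toT (decide ((n a : ℤ) < 0), (n a : ℤ).natAbs)) (toT 1)
  rw [Int.natAbs_natCast, decide_eq_false (by omega)]

/-- The instance. -/
def instR (φ : Cn) : List (List Unit) × ℚ := (demandsU φ, ((SS φ.length : ℕ) : ℚ))

theorem instR_poly : Poly instR := Poly.pair demandsU_poly (rat_poly SS_u.toPoly)

theorem instR_correct (φ : Cn) : SAT3 φ ↔ RTVUnary (instR φ) := by
  unfold RTVUnary instR demandsU
  rw [List.map_map]
  have : (List.length ∘ fun b => List.replicate b ()) = (id : ℕ → ℕ) := by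
    funext b
    simp
  rw [this, List.map_id]
  exact demands_correct φ

theorem hardI_rtv : HardI RTVUnary := hardI_SAT3.trans instR_poly instR_correct

end Pool.Agent.H682.RV
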